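import Pool.Agent.Helper91.FU.S
import Pool.Agent.Helper17.N9.N9J
import Pool.Agent.Helper17.N9.N9E

/-!
Fused machine (MP_c75db0, star frame), row N2.
-/

set_option autoImplicit false
set_option exponentiation.threshold 100000
noncomputable section
namespace Pool.Agent.Helper91.FU

open Finset
open Pool.Agent.Helper91
open Pool.Agent.Helper90.KMT (PT)
open Pool.Agent.Helper90.KMO (UU UU_pos andB_t)
open Pool.Agent.Helper86.CX (andB)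
open Pool.Agent.Helper86.CT (Mo)
open Pool.Agent.Helper91.TM (TP Sm Sz Sp Ev Nh zc tS vb xd ds SB)
open Pool.Agent.Helper91.TMK (TOK)

/-! ROW N2: economization (real side only) -/

open Pool.Agent.Helper17.N9 (ndw nlg)
open Pool.Agent.Helper90.C75 (avg Vt)

/-- the value of a polynomial with real coefficients at the point `s / 4` -/
def Er (t : ℕ → ℝ) (p : ℕ → ℝ) : ℝ := ∑ i ∈ range 301, p i * TM.mu (sS t) i

theorem Ev_zc (t : ℕ → ℝ) (p q : ℕ → ℤ) : Ev (sS t) (zc p q) =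
    (⟨Er t (fun i => (p i : ℝ)), Er t (fun i => (q i : ℝ))⟩ : ℂ) := by
  apply Complex.ext
  · simp only [Ev, Er, zc, Complex.re_sum]
    refine Finset.sum_congr rfl fun i _ => ?_
    simp
  · simp only [Ev, Er, zc, Complex.im_sum]
    refine Finset.sum_congr rfl fun i _ => ?_
    simp

/-! ### one variable -/

theorem ec_0 (s : ℝ) : ec 0 s = 1 := by simp [ec]
theorem ec_1 (s : ℝ) : ec 1 s = s := by simp [ec]
theorem ec_2 (s : ℝ) : ec 2 s = s ^ 2 := by simp [ec]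
theorem ec_3 (s : ℝ) : ec 3 s = 3 / 4 * s := by simp [ec]
theorem ec_4 (s : ℝ) : ec 4 s = s ^ 2 := by simp [ec]
theorem ec_5 (s : ℝ) : ec 5 s = 3 / 4 * s := by simp [ec]
theorem ec_6 (s : ℝ) : ec 6 s = s ^ 2 := by simp [ec]

/-- the interpolation is exact for the economized powers -/
theorem ec_int (e : ℕ) (t : ℝ) : ∑ i : Fin 3, nlg (i : ℕ) t * ec e (ns i) = ec e (2 * t - 1) := by
  rw [Fin.sum_univ_three]
  have h0 : nlg ((0 : Fin 3) : ℕ) t = (1 - t) * (1 - 2 * t) := by simp [nlg]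
  have h1 : nlg ((1 : Fin 3) : ℕ) t = 4 * t * (1 - t) := by simp [nlg]
  have h2 : nlg ((2 : Fin 3) : ℕ) t = t * (2 * t - 1) := by simp [nlg]
  have n0 : ns 0 = -1 := by simp [ns]
  have n1 : ns 1 = 0 := by simp [ns]
  have n2 : ns 2 = 1 := by simp [ns]; norm_num
  rw [h0, h1, h2, n0, n1, n2]
  unfold ec
  split_ifs <;> ring

theorem d3 {s : ℝ} (h : |s| ≤ 1) : |s ^ 3 - 3 / 4 * s| ≤ 1 / 4 := by
  obtain ⟨h0, h1⟩ := abs_le.1 h
  rw [abs_le]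
  constructor
  · nlinarith [mul_nonneg (by linarith : (0 : ℝ) ≤ 1 + s) (sq_nonneg (2 * s - 1))]
  · nlinarith [mul_nonneg (by linarith : (0 : ℝ) ≤ 1 - s) (sq_nonneg (2 * s + 1))]

theorem d4 {s : ℝ} (h : |s| ≤ 1) : |s ^ 4 - s ^ 2| ≤ 1 / 4 := by
  have h2 : s ^ 2 ≤ 1 := by
    rw [← sq_abs]
    exact pow_le_one₀ (abs_nonneg s) h
  rw [abs_le]
  constructor
  · nlinarith [sq_nonneg (s ^ 2 - 1 / 2)]
  · nlinarith [mul_nonneg (sq_nonneg s) (by linarith : (0 : ℝ) ≤ 1 - s ^ 2)]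

theorem d5 {s : ℝ} (h : |s| ≤ 1) : |s ^ 5 - 3 / 4 * s| ≤ 1 / 2 := by
  have h1 : s ^ 5 - 3 / 4 * s = s * (s ^ 4 - s ^ 2) + (s ^ 3 - 3 / 4 * s) := by ring
  rw [h1]
  have h2 : |s * (s ^ 4 - s ^ 2)| ≤ 1 / 4 := by
    rw [abs_mul]
    calc |s| * |s ^ 4 - s ^ 2| ≤ 1 * (1 / 4) :=
          mul_le_mul h (d4 h) (abs_nonneg _) zero_le_one
      _ = 1 / 4 := one_mul _
  have h3 := abs_add_le (s * (s ^ 4 - s ^ 2)) (s ^ 3 - 3 / 4 * s)
  have h4 := d3 h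
  linarith

theorem d6 {s : ℝ} (h : |s| ≤ 1) : |s ^ 6 - s ^ 2| ≤ 1 / 2 := by
  have h2 : s ^ 2 ≤ 1 := by
    rw [← sq_abs]
    exact pow_le_one₀ (abs_nonneg s) h
  have h1 : s ^ 6 - s ^ 2 = (1 + s ^ 2) * (s ^ 4 - s ^ 2) := by ring
  rw [h1, abs_mul, abs_of_nonneg (by positivity : (0 : ℝ) ≤ 1 + s ^ 2)]
  calc (1 + s ^ 2) * |s ^ 4 - s ^ 2| ≤ 2 * (1 / 4) :=
        mul_le_mul (by linarith) (d4 h) (abs_nonneg _) (by norm_num)
    _ = 1 / 2 := by norm_num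

/-- one variable: the error -/
theorem d_e {s : ℝ} (h : |s| ≤ 1) {e : ℕ} (he : e ≤ 6) :
    |s ^ e - ec e s| ≤ if e ≤ 4 then 1 / 4 else 1 / 2 := by
  interval_cases e
  · simp [ec_0]
  · simp [ec_1]
  · simp [ec_2]
  · simpa [ec_3] using d3 h
  · simpa [ec_4] using d4 h
  · simpa [ec_5] using d5 h
  · simpa [ec_6] using d6 h

theorem d_lo {s : ℝ} {e : ℕ} (he : e < 3) : s ^ e = ec e s := by
  interval_cases e
  · simp [ec_0]
  · simp [ec_1]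
  · simp [ec_2]

theorem pow_le' {s : ℝ} (h : |s| ≤ 1) (e : ℕ) : |s ^ e| ≤ 1 := by
  rw [abs_pow]
  exact pow_le_one₀ (abs_nonneg s) h

/-! ### three variables -/

/-- only the first exponent is large -/
theorem d_one {s y z : ℝ} (h : |s| ≤ 1) (hy : |y| ≤ 1) (hz : |z| ≤ 1) {a n : ℕ} (ha : a ≤ n)
    (hn : n ≤ 6) : |s ^ a * y * z - ec a s * y * z| ≤ if n ≤ 4 then 1 / 4 else 1 / 2 := by
  have h1 : s ^ a * y * z - ec a s * y * z = (s ^ a - ec a s) * (y * z) := by ring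
  have h2 := d_e h (ha.trans hn)
  have h3 : |y * z| ≤ 1 := by
    rw [abs_mul]
    exact mul_le_one₀ hy (abs_nonneg z) hz
  rw [h1, abs_mul]
  have h4 : |s ^ a - ec a s| * |y * z| ≤ |s ^ a - ec a s| :=
    mul_le_of_le_one_right (abs_nonneg _) h3
  refine h4.trans (h2.trans ?_)
  by_cases hn4 : n ≤ 4
  · rw [if_pos hn4, if_pos (ha.trans hn4)]
  · rw [if_neg hn4]
    split_ifs <;> norm_num

/-- two exponents are `3` -/
theorem d_two {x y : ℝ} (hx : |x| ≤ 1) (hy : |y| ≤ 1) :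
    |x ^ 3 * y ^ 3 - 3 / 4 * x * (3 / 4 * y)| ≤ 1 / 2 := by
  have h0 : |x * y| ≤ 1 := by
    rw [abs_mul]
    exact mul_le_one₀ hx (abs_nonneg y) hy
  have h1 : x ^ 3 * y ^ 3 - 3 / 4 * x * (3 / 4 * y) =
      ((x * y) ^ 3 - 3 / 4 * (x * y)) + 3 / 16 * (x * y) := by ring
  rw [h1]
  have h2 := abs_add_le ((x * y) ^ 3 - 3 / 4 * (x * y)) (3 / 16 * (x * y))
  have h3 := d3 h0
  have h4 : |3 / 16 * (x * y)| ≤ 3 / 16 := by
    rw [abs_mul, abs_of_nonneg (by norm_num : (0 : ℝ) ≤ 3 / 16)]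
    nlinarith
  linarith

/-- THE ERROR OF A MONOMIAL -/
theorem d_mon {x y z : ℝ} (hx : |x| ≤ 1) (hy : |y| ≤ 1) (hz : |z| ≤ 1) {a b c : ℕ}
    (hn : a + b + c ≤ 6) : |x ^ a * y ^ b * z ^ c - ec a x * ec b y * ec c z| ≤
      if 3 ≤ a ∨ 3 ≤ b ∨ 3 ≤ c then (if a + b + c ≤ 4 then 1 / 4 else 1 / 2) else 0 := by
  by_cases ha : a < 3
  · by_cases hb : b < 3
    · by_cases hc : c < 3
      · rw [if_neg (by omega), d_lo ha, d_lo hb, d_lo hc, sub_self, abs_zero]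
      · rw [if_pos (by omega), ← d_lo ha, ← d_lo hb]
        have h1 := d_one hz (pow_le' hx a) (pow_le' hy b) (a := c) (n := a + b + c) (by omega) hn
        have e1 : x ^ a * y ^ b * z ^ c - x ^ a * y ^ b * ec c z =
            z ^ c * x ^ a * y ^ b - ec c z * x ^ a * y ^ b := by ring
        rw [e1]
        exact h1
    · by_cases hc : c < 3
      · rw [if_pos (by omega), ← d_lo ha, ← d_lo hc]
        have h1 := d_one hy (pow_le' hx a) (pow_le' hz c) (a := b) (n := a + b + c) (by omega) hn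
        have e1 : x ^ a * y ^ b * z ^ c - x ^ a * ec b y * z ^ c =
            y ^ b * x ^ a * z ^ c - ec b y * x ^ a * z ^ c := by ring
        rw [e1]
        exact h1
      · obtain rfl : a = 0 := by omega
        obtain rfl : b = 3 := by omega
        obtain rfl : c = 3 := by omega
        rw [if_pos (by omega), if_neg (by omega), ec_0, ec_3, ec_3]
        have e1 : x ^ 0 * y ^ 3 * z ^ 3 - 1 * (3 / 4 * y) * (3 / 4 * z) =
            y ^ 3 * z ^ 3 - 3 / 4 * y * (3 / 4 * z) := by ring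
        rw [e1]
        exact d_two hy hz
  · by_cases hb : b < 3
    · by_cases hc : c < 3
      · rw [if_pos (by omega), ← d_lo hb, ← d_lo hc]
        exact d_one hx (pow_le' hy b) (pow_le' hz c) (by omega) hn
      · obtain rfl : a = 3 := by omega
        obtain rfl : b = 0 := by omega
        obtain rfl : c = 3 := by omega
        rw [if_pos (by omega), if_neg (by omega), ec_0, ec_3, ec_3]
        have e1 : x ^ 3 * y ^ 0 * z ^ 3 - 3 / 4 * x * 1 * (3 / 4 * z) =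
            x ^ 3 * z ^ 3 - 3 / 4 * x * (3 / 4 * z) := by ring
        rw [e1]
        exact d_two hx hz
    · obtain rfl : a = 3 := by omega
      obtain rfl : b = 3 := by omega
      obtain rfl : c = 0 := by omega
      rw [if_pos (by omega), if_neg (by omega), ec_0, ec_3, ec_3]
      have e1 : x ^ 3 * y ^ 3 * z ^ 0 - 3 / 4 * x * (3 / 4 * y) * 1 =
          x ^ 3 * y ^ 3 - 3 / 4 * x * (3 / 4 * y) := by ring
      rw [e1]
      exact d_two hx hy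

/-! ### the polynomial -/

/-- the economized polynomial at the point `s` -/
def Ee (t : ℕ → ℝ) (p : ℕ → ℝ) : ℝ := ∑ i ∈ range 301, p i / 4 ^ xd i *
  (ec (TM.x0 i) (2 * t 0 - 1) * ec (TM.x1 i) (2 * t 1 - 1) * ec (TM.x2 i) (2 * t 2 - 1))

theorem Un_sum (t : ℕ → ℝ) (p : ℕ → ℝ) : ∑ i2 : Fin 3, ∑ i1 : Fin 3, ∑ i0 : Fin 3,
      (nlg (i0 : ℕ) (t 0) * nlg (i1 : ℕ) (t 1) * nlg (i2 : ℕ) (t 2)) * Un p i0 i1 i2 = Ee t p := by
  have h1 : ∀ i2 i1 i0 : Fin 3,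
      (nlg (i0 : ℕ) (t 0) * nlg (i1 : ℕ) (t 1) * nlg (i2 : ℕ) (t 2)) * Un p i0 i1 i2 =
      ∑ i ∈ range 301, p i / 4 ^ xd i * ((nlg (i0 : ℕ) (t 0) * ec (TM.x0 i) (ns i0)) *
        (nlg (i1 : ℕ) (t 1) * ec (TM.x1 i) (ns i1)) *
        (nlg (i2 : ℕ) (t 2) * ec (TM.x2 i) (ns i2))) := by
    intro i2 i1 i0
    rw [Un, Finset.mul_sum]
    refine Finset.sum_congr rfl fun i _ => ?_
    ring
  have h2 : ∀ i : ℕ, ∑ i2 : Fin 3, ∑ i1 : Fin 3, ∑ i0 : Fin 3,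
      p i / 4 ^ xd i * ((nlg (i0 : ℕ) (t 0) * ec (TM.x0 i) (ns i0)) *
        (nlg (i1 : ℕ) (t 1) * ec (TM.x1 i) (ns i1)) *
        (nlg (i2 : ℕ) (t 2) * ec (TM.x2 i) (ns i2))) =
      p i / 4 ^ xd i * (ec (TM.x0 i) (2 * t 0 - 1) * ec (TM.x1 i) (2 * t 1 - 1) *
        ec (TM.x2 i) (2 * t 2 - 1)) := by
    intro i
    rw [← ec_int (TM.x0 i) (t 0), ← ec_int (TM.x1 i) (t 1), ← ec_int (TM.x2 i) (t 2)]
    rw [Finset.mul_sum, Finset.mul_sum]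
    refine Finset.sum_congr rfl fun i2 _ => ?_
    rw [Finset.sum_mul_sum, Finset.sum_mul, Finset.mul_sum, Finset.sum_comm]
    refine Finset.sum_congr rfl fun i0 _ => ?_
    rw [Finset.sum_mul, Finset.mul_sum]
  simp only [h1]
  rw [Ee]
  calc ∑ i2 : Fin 3, ∑ i1 : Fin 3, ∑ i0 : Fin 3, ∑ i ∈ range 301,
        p i / 4 ^ xd i * ((nlg (i0 : ℕ) (t 0) * ec (TM.x0 i) (ns i0)) *
        (nlg (i1 : ℕ) (t 1) * ec (TM.x1 i) (ns i1)) *
        (nlg (i2 : ℕ) (t 2) * ec (TM.x2 i) (ns i2))) =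
      ∑ i2 : Fin 3, ∑ i1 : Fin 3, ∑ i ∈ range 301, ∑ i0 : Fin 3,
        p i / 4 ^ xd i * ((nlg (i0 : ℕ) (t 0) * ec (TM.x0 i) (ns i0)) *
        (nlg (i1 : ℕ) (t 1) * ec (TM.x1 i) (ns i1)) *
        (nlg (i2 : ℕ) (t 2) * ec (TM.x2 i) (ns i2))) :=
        Finset.sum_congr rfl fun _ _ => Finset.sum_congr rfl fun _ _ => Finset.sum_comm
    _ = ∑ i2 : Fin 3, ∑ i ∈ range 301, ∑ i1 : Fin 3, ∑ i0 : Fin 3,
        p i / 4 ^ xd i * ((nlg (i0 : ℕ) (t 0) * ec (TM.x0 i) (ns i0)) *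
        (nlg (i1 : ℕ) (t 1) * ec (TM.x1 i) (ns i1)) *
        (nlg (i2 : ℕ) (t 2) * ec (TM.x2 i) (ns i2))) :=
        Finset.sum_congr rfl fun _ _ => Finset.sum_comm
    _ = ∑ i ∈ range 301, ∑ i2 : Fin 3, ∑ i1 : Fin 3, ∑ i0 : Fin 3,
        p i / 4 ^ xd i * ((nlg (i0 : ℕ) (t 0) * ec (TM.x0 i) (ns i0)) *
        (nlg (i1 : ℕ) (t 1) * ec (TM.x1 i) (ns i1)) *
        (nlg (i2 : ℕ) (t 2) * ec (TM.x2 i) (ns i2))) := Finset.sum_comm
    _ = _ := Finset.sum_congr rfl fun i _ => h2 i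

theorem vb_deg {i : ℕ} (h : vb i = true) : TM.x0 i + TM.x1 i + TM.x2 i = xd i ∧ xd i ≤ 6 := by
  have h1 := (TM.vb_iff i).1 h
  have e1 : TM.x1 i = i % 43 % 7 := rfl
  have e2 : TM.x2 i = i % 43 / 7 := rfl
  have e3 : TM.x0 i = xd i - (TM.x1 i + TM.x2 i) := rfl
  have e4 : xd i = i / 43 := rfl
  omega

/-- THE ERROR -/
theorem eco {t : ℕ → ℝ} (hP : PT 3 t) {p : ℕ → ℝ} (hp : ∀ i, vb i = false → p i = 0) :
    |Er t p - ∑ i2 : Fin 3, ∑ i1 : Fin 3, ∑ i0 : Fin 3,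
      (nlg (i0 : ℕ) (t 0) * nlg (i1 : ℕ) (t 1) * nlg (i2 : ℕ) (t 2)) * Un p i0 i1 i2| ≤ Cu p := by
  have hs : ∀ j < 3, |2 * t j - 1| ≤ 1 := by
    intro j hj
    have h0 := hP.h0 j hj
    have h1 := hP.h1 j hj
    rw [abs_le]
    constructor <;> linarith
  rw [Un_sum, Er, Ee, Cu, ← Finset.sum_sub_distrib]
  refine (Finset.abs_sum_le_sum_abs _ _).trans (Finset.sum_le_sum fun i _ => ?_)
  by_cases hv : vb i = true
  · obtain ⟨hd, h6⟩ := vb_deg hv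
    have e1 : p i * TM.mu (sS t) i - p i / 4 ^ xd i *
        (ec (TM.x0 i) (2 * t 0 - 1) * ec (TM.x1 i) (2 * t 1 - 1) * ec (TM.x2 i) (2 * t 2 - 1)) =
        p i / 4 ^ xd i * ((2 * t 0 - 1) ^ TM.x0 i * (2 * t 1 - 1) ^ TM.x1 i *
          (2 * t 2 - 1) ^ TM.x2 i - ec (TM.x0 i) (2 * t 0 - 1) * ec (TM.x1 i) (2 * t 1 - 1) *
          ec (TM.x2 i) (2 * t 2 - 1)) := by
      have e2 : TM.mu (sS t) i = ((2 * t 0 - 1) ^ TM.x0 i * (2 * t 1 - 1) ^ TM.x1 i *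
          (2 * t 2 - 1) ^ TM.x2 i) / 4 ^ xd i := by
        rw [TM.mu, sS, sS, sS, div_pow, div_pow, div_pow, ← hd, pow_add, pow_add]
        field_simp
      rw [e2]
      ring
    have h2 := d_mon (hs 0 (by norm_num)) (hs 1 (by norm_num)) (hs 2 (by norm_num))
      (a := TM.x0 i) (b := TM.x1 i) (c := TM.x2 i) (by omega)
    rw [hd] at h2
    rw [e1, abs_mul, abs_div, abs_of_pos (by positivity : (0 : ℝ) < 4 ^ xd i)]
    by_cases hc : cub i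
    · rw [if_pos ⟨hv, hc⟩]
      have hc' : 3 ≤ TM.x0 i ∨ 3 ≤ TM.x1 i ∨ 3 ≤ TM.x2 i := hc
      rw [if_pos hc'] at h2
      exact mul_le_mul_of_nonneg_left h2 (by positivity)
    · rw [if_neg (fun h => hc h.2)]
      have hc' : ¬ (3 ≤ TM.x0 i ∨ 3 ≤ TM.x1 i ∨ 3 ≤ TM.x2 i) := hc
      rw [if_neg hc'] at h2
      have h3 := le_antisymm h2 (abs_nonneg _)
      rw [h3, mul_zero]
  · have hv' : vb i = false := by simpa using hv
    rw [hp i hv', if_neg (fun h => hv h.1)]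
    simp

/-- the sum over the nodes of three directions -/
theorem avg3 (t : ℕ → ℝ) (G : Vt 3 → ℂ) : avg (ndw 3 t) G =
    ∑ i2 : Fin 3, ∑ i1 : Fin 3, ∑ i0 : Fin 3,
      ((nlg (i0 : ℕ) (t 0) * nlg (i1 : ℕ) (t 1) * nlg (i2 : ℕ) (t 2) : ℝ) : ℂ) *
        G ((((), i0), i1), i2) := by
  have hz : ∀ H : Vt 0 → ℂ, avg (ndw 0 t) H = H () := by
    intro H
    show ∑ _v : Unit, ((1 : ℝ) : ℂ) * H () = H ()
    simp
  rw [Pool.Agent.Helper17.N9.avg_ndw_succ]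
  simp only [Pool.Agent.Helper17.N9.avg_ndw_succ, hz, Fin.sum_univ_three]
  push_cast
  simp only [Fin.val_zero, Fin.val_one, Fin.val_two]
  ring

/-- the same with the weights of the nodes -/
theorem eco_avg {t : ℕ → ℝ} (hP : PT 3 t) {p q : ℕ → ℝ} (hp : ∀ i, vb i = false → p i = 0)
    (hq : ∀ i, vb i = false → q i = 0) :
    ‖(⟨Er t p, Er t q⟩ : ℂ) - avg (ndw 3 t) (fun v : Vt 3 =>
      (⟨Un p v.1.1.2 v.1.2 v.2, Un q v.1.1.2 v.1.2 v.2⟩ : ℂ))‖ ≤ √(Cu p ^ 2 + Cu q ^ 2) := by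
  have h1 := eco hP hp
  have h2 := eco hP hq
  have e1 : avg (ndw 3 t) (fun v : Vt 3 =>
      (⟨Un p v.1.1.2 v.1.2 v.2, Un q v.1.1.2 v.1.2 v.2⟩ : ℂ)) =
      ⟨∑ i2 : Fin 3, ∑ i1 : Fin 3, ∑ i0 : Fin 3,
        (nlg (i0 : ℕ) (t 0) * nlg (i1 : ℕ) (t 1) * nlg (i2 : ℕ) (t 2)) * Un p i0 i1 i2,
      ∑ i2 : Fin 3, ∑ i1 : Fin 3, ∑ i0 : Fin 3,
        (nlg (i0 : ℕ) (t 0) * nlg (i1 : ℕ) (t 1) * nlg (i2 : ℕ) (t 2)) * Un q i0 i1 i2⟩ := by
    rw [avg3]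
    apply Complex.ext
    · simp only [Complex.re_sum, Complex.re_ofReal_mul]
    · simp only [Complex.im_sum, Complex.im_ofReal_mul]
  rw [e1]
  have e2 : ∀ a b c d : ℝ, (⟨a, b⟩ : ℂ) - ⟨c, d⟩ = ⟨a - c, b - d⟩ := fun a b c d => rfl
  rw [e2]
  have e3 : ∀ a b : ℝ, ‖(⟨a, b⟩ : ℂ)‖ = √(a ^ 2 + b ^ 2) := by
    intro a b
    rw [Complex.norm_def, Complex.normSq_mk]
    congr 1
    ring
  rw [e3]
  apply Real.sqrt_le_sqrt
  have h3 := pow_le_pow_left₀ (abs_nonneg _) h1 2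
  have h4 := pow_le_pow_left₀ (abs_nonneg _) h2 2
  rw [sq_abs] at h3 h4
  exact add_le_add h3 h4

/-- numbers in an interval at the nodes (`D = 3`, `D = 4`): rounding down -/
theorem fl_avg {D : ℕ} (hD : D ≤ 4) {t : ℕ → ℝ} (hP : PT D t) {a : Vt D → ℂ}
    (h : ∀ v, -(1 / 2 ^ 10 : ℝ) ≤ (a v).re ∧ (a v).re ≤ 1 + 1 / 2 ^ 10 ∧
      -(1 / 2 ^ 10 : ℝ) ≤ (a v).im ∧ (a v).im ≤ 1 + 1 / 2 ^ 10) :
    ‖avg (ndw D t) a‖ ≤ if D ≤ 3 then 2.2 else 2.6 := by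
  have e3 : ∀ a b : ℝ, ‖(⟨a, b⟩ : ℂ)‖ = √(a ^ 2 + b ^ 2) := by
    intro a b
    rw [Complex.norm_def, Complex.normSq_mk]
    congr 1
    ring
  obtain ⟨c, hc⟩ : ∃ c : ℂ, c = ⟨1 / 2, 1 / 2⟩ := ⟨_, rfl⟩
  have hcn : ‖c‖ ≤ 0.7072 := by
    rw [hc, e3]
    exact Real.sqrt_le_iff.2 ⟨by norm_num, by norm_num⟩
  have hd : ∀ v, ‖a v - c‖ ≤ 0.7086 := by
    intro v
    obtain ⟨h1, h2, h3, h4⟩ := h v
    have e : a v - c = ⟨(a v).re - 1 / 2, (a v).im - 1 / 2⟩ := by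
      rw [hc]
      rfl
    rw [e, e3]
    refine Real.sqrt_le_iff.2 ⟨by norm_num, ?_⟩
    have k1 : ((a v).re - 1 / 2) ^ 2 ≤ (1 / 2 + 1 / 2 ^ 10) ^ 2 := by
      rw [← sq_abs]
      exact pow_le_pow_left₀ (abs_nonneg _) (abs_le.2 ⟨by linarith, by linarith⟩) 2
    have k2 : ((a v).im - 1 / 2) ^ 2 ≤ (1 / 2 + 1 / 2 ^ 10) ^ 2 := by
      rw [← sq_abs]
      exact pow_le_pow_left₀ (abs_nonneg _) (abs_le.2 ⟨by linarith, by linarith⟩) 2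
    refine (add_le_add k1 k2).trans ?_
    norm_num
  have e1 : avg (ndw D t) a = c + avg (ndw D t) (fun v => a v - c) := by
    rw [Pool.Agent.Helper90.C75.avg_sub, Pool.Agent.Helper17.N9.avg_const']
    ring
  have h1 := Pool.Agent.Helper17.N9.norm_ndw_le hP hd
  have h2 : ‖avg (ndw D t) a‖ ≤ 0.7072 + (5 / 4) ^ D * 0.7086 := by
    rw [e1]
    exact (norm_add_le _ _).trans (add_le_add hcn h1)
  refine h2.trans ?_
  interval_cases D <;> norm_num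

end Pool.Agent.Helper91.FU
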